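import Mathlib
import Pool.Agent.Lib.MP_04143b_an.Main

/-!
# The constant `c₆` of the approximation of short plane curves by piecewise monotone curves

`Γ_1` is the set of the plane curves of Euclidean length at most `1`, `M_n^2` the set of the curves
both of whose coordinate functions are continuous with at most `n` sections of monotonicity, and
`E(M_n^2; Γ_1)` the worst best approximation in the Hausdorff distance of the box metric.
The exact value of `c₆ = limsup n E(M_n^2; Γ_1)` is `1/3`, and the limit exists.
-/

set_option autoImplicit false

open Filter Topology

namespace Pool.Agent.Results.MP_04143b_an.ConstantOneThird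

open Pool.Agent.Lib.MP_04143b_an

/-- The exact value of the constant `c₆` is `1/3`; moreover `n E(M_n^2; Γ_1)` converges to `1/3`. -/
theorem result :
    c6 = 1 / 3 ∧ Tendsto (fun n : ℕ => (n : ℝ) * EE n) atTop (𝓝 (1 / 3)) :=
  ⟨c6_eq, tendsto_main⟩

end Pool.Agent.Results.MP_04143b_an.ConstantOneThird
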